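import Mathlib
import Pool.Agent.H12.HypBox

set_option autoImplicit false

namespace Pool.Agent.Results.MP_e67bad_co.WeakForm

theorem result :
    ∀ k : ℕ, 2 ≤ k → k % 3 ≠ 1 →
      ∃ a : Fin 4 → ℝ, a ≠ 0 ∧
        (∀ x : Fin 4 → ℤ, (∀ i, |x i| ≤ (k : ℤ)) → ∑ i, a i * (x i : ℝ) = 0 → x = 0) ∧
        ((1 + Real.sqrt 2) ^ 4 + (1 - Real.sqrt 2) ^ 4) / 2 <
          (((Fintype.piFinset fun _ : Fin 4 => Finset.Icc (-((k : ℤ) + 1)) ((k : ℤ) + 1)).filter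
              (fun x => ∑ i, a i * (x i : ℝ) = 0)).card : ℝ) := by
  intro k hk h3
  obtain ⟨a, ha, hav, hc⟩ := Pool.Agent.H12.HypBox.main k hk h3
  refine ⟨a, ha, hav, ?_⟩
  rw [Pool.Agent.H12.HypBox.p4]
  have h19 : (17 : ℝ) < ((19 : ℕ) : ℝ) := by norm_num
  exact lt_of_lt_of_le h19 (by exact_mod_cast hc)

end Pool.Agent.Results.MP_e67bad_co.WeakForm
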